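import Pool.Agent.Helper44.GN.Defs

/-!
Module DD2: the logarithmic derivative of the distance of the columns.
-/

open Finset MeasureTheory Filter Topology Matrix
open scoped ENNReal ContDiff

namespace Pool.Agent.Helper44.GN

open Pool.Agent.Helper44.GF

theorem dd2_mul {a b c : ℕ} (A : ℝ → Matrix (Fin a) (Fin b) ℝ) (B : ℝ → Matrix (Fin b) (Fin c) ℝ)
    (A' : Matrix (Fin a) (Fin b) ℝ) (B' : Matrix (Fin b) (Fin c) ℝ) (t : ℝ)
    (hA : ∀ i j, HasDerivAt (fun s => A s i j) (A' i j) t)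
    (hB : ∀ i j, HasDerivAt (fun s => B s i j) (B' i j) t) :
    ∀ i j, HasDerivAt (fun s => (A s * B s) i j) ((A' * B t + A t * B') i j) t := by
  intro i j
  have h : HasDerivAt (fun s => ∑ k, A s i k * B s k j)
      (∑ k, (A' i k * B t k j + A t i k * B' k j)) t :=
    HasDerivAt.fun_sum fun k _ => (hA i k).mul (hB k j)
  have e : ((A' * B t + A t * B') i j) = ∑ k, (A' i k * B t k j + A t i k * B' k j) := by
    rw [Matrix.add_apply, Matrix.mul_apply, Matrix.mul_apply, Finset.sum_add_distrib]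
  rw [e]
  simp only [Matrix.mul_apply]
  exact h

theorem dd2_dot {m : ℕ} (M : ℝ → Matrix (Fin m) (Fin m) ℝ) (M' : Matrix (Fin m) (Fin m) ℝ)
    (t : ℝ) (v w : Fin m → ℝ) (hM : ∀ i j, HasDerivAt (fun s => M s i j) (M' i j) t) :
    HasDerivAt (fun s => v ⬝ᵥ M s *ᵥ w) (v ⬝ᵥ M' *ᵥ w) t := by
  have h : HasDerivAt (fun s => ∑ i, v i * ∑ j, M s i j * w j)
      (∑ i, v i * ∑ j, M' i j * w j) t :=
    HasDerivAt.fun_sum fun i _ => HasDerivAt.const_mul (v i)
      (HasDerivAt.fun_sum fun j _ => (hM i j).mul_const (w j))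
  exact h

theorem dd2_T {n m : ℕ} (V W : Matrix (Fin n) (Fin m) ℝ) (y : Fin n → ℝ) (x : Fin n) (t : ℝ)
    (i j : Fin m) : HasDerivAt (fun s => TT V W (Function.update y x s) i j)
      (Matrix.vecMulVec (V x) (W x) i j) t := by
  have hu : ∀ x' : Fin n, HasDerivAt (fun s => Function.update y x s x')
      ((Pi.single x (1 : ℝ) : Fin n → ℝ) x') t := by
    have := hasDerivAt_update y x t
    exact hasDerivAt_pi.1 this
  have h : HasDerivAt (fun s => ∑ x', V x' i * Function.update y x s x' * W x' j)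
      (∑ x', V x' i * (Pi.single x (1 : ℝ) : Fin n → ℝ) x' * W x' j) t :=
    HasDerivAt.fun_sum fun x' _ => ((hu x').const_mul (V x' i)).mul_const (W x' j)
  have e : ∑ x', V x' i * (Pi.single x (1 : ℝ) : Fin n → ℝ) x' * W x' j =
      Matrix.vecMulVec (V x) (W x) i j := by
    rw [Matrix.vecMulVec_apply, Finset.sum_eq_single x]
    · rw [Pi.single_eq_same, mul_one]
    · intro b _ hb
      rw [Pi.single_eq_of_ne hb, mul_zero, zero_mul]
    · intro hx
      exact absurd (Finset.mem_univ x) hx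
  rw [e] at h
  have e2 : (fun s => TT V W (Function.update y x s) i j) =
      fun s => ∑ x', V x' i * Function.update y x s x' * W x' j := by
    funext s
    unfold TT
    rw [Matrix.mul_apply]
    refine Finset.sum_congr rfl fun x' _ => ?_
    rw [Matrix.mul_diagonal, Matrix.transpose_apply]
  rw [e2]
  exact h

theorem dd2_rank1 {m : ℕ} (A B : Matrix (Fin m) (Fin m) ℝ) (u v a b : Fin m → ℝ) :
    u ⬝ᵥ (A * Matrix.vecMulVec a b * B) *ᵥ v = (u ⬝ᵥ A *ᵥ a) * (b ⬝ᵥ B *ᵥ v) := by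
  rw [← Matrix.mulVec_mulVec, ← Matrix.mulVec_mulVec]
  have h : Matrix.vecMulVec a b *ᵥ (B *ᵥ v) = (b ⬝ᵥ B *ᵥ v) • a := by
    ext i
    rw [Pi.smul_apply, smul_eq_mul]
    simp only [Matrix.mulVec, Matrix.vecMulVec_apply, dotProduct]
    rw [Finset.sum_mul]
    refine Finset.sum_congr rfl fun k _ => ?_
    ring
  rw [h, Matrix.mulVec_smul, dotProduct_smul, smul_eq_mul]
  ring

theorem st_DD2 (_h1 : ST_PJP) (h2 : ST_PJE) (h3 : ST_DIN) : ST_DD2 := by
  intro n m V W hV hW y hy x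
  have hyx : 0 < y x := hy x
  have hev : ∀ᶠ s in 𝓝 (y x), Function.update y x s ∈ Og n := by
    filter_upwards [lt_mem_nhds hyx] with s hs
    intro x'
    by_cases hx : x' = x
    · rw [hx, Function.update_self]
      exact hs
    · rw [Function.update_of_ne hx]
      exact hy x'
  set v := V x with hv
  set w := W x with hw
  -- the formula
  have hform : (fun s => d2 V W (Function.update y x s) x) =ᶠ[𝓝 (y x)] fun s =>
      s * (v ⬝ᵥ (TT V V (Function.update y x s))⁻¹ *ᵥ v) +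
      s * (w ⬝ᵥ (TT W W (Function.update y x s))⁻¹ *ᵥ w) -
      2 * (s * (v ⬝ᵥ ((TT V V (Function.update y x s))⁻¹ * TT V W (Function.update y x s) *
        (TT W W (Function.update y x s))⁻¹) *ᵥ w)) := by
    filter_upwards [hev] with s hs
    unfold d2
    rw [(h2 n m V W _ hs).1 x, (h2 n m W V _ hs).1 x, (h2 n m V W _ hs).2.1 x,
      Function.update_self]
  have hA : ∀ i j, HasDerivAt (fun s => (TT V V (Function.update y x s))⁻¹ i j)
      ((-((TT V V y)⁻¹ * Matrix.vecMulVec v v * (TT V V y)⁻¹) :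
        Matrix (Fin m) (Fin m) ℝ) i j) (y x) := fun i j => h3 n m V hV y hy x i j
  have hB : ∀ i j, HasDerivAt (fun s => (TT W W (Function.update y x s))⁻¹ i j)
      ((-((TT W W y)⁻¹ * Matrix.vecMulVec w w * (TT W W y)⁻¹) :
        Matrix (Fin m) (Fin m) ℝ) i j) (y x) := fun i j => h3 n m W hW y hy x i j
  have hT : ∀ i j, HasDerivAt (fun s => TT V W (Function.update y x s) i j)
      (Matrix.vecMulVec v w i j) (y x) := fun i j => dd2_T V W y x (y x) i j
  have hAT := dd2_mul _ _ _ _ _ hA hT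
  have hATB := dd2_mul _ _ _ _ _ hAT hB
  have d1 := (hasDerivAt_id (y x)).mul (dd2_dot _ _ _ v v hA)
  have d2' := (hasDerivAt_id (y x)).mul (dd2_dot _ _ _ w w hB)
  have d3 := ((hasDerivAt_id (y x)).mul (dd2_dot _ _ _ v w hATB)).const_mul 2
  have dall := (d1.add d2').sub d3
  have hder := dall.congr_of_eventuallyEq hform
  simp only [Function.update_eq_self, id_eq, one_mul] at hder
  have f1 := (h2 n m V W y hy).1 x
  have f2 := (h2 n m W V y hy).1 x
  have f3 := (h2 n m V W y hy).2.1 x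
  refine hder.congr_deriv ?_
  unfold d2
  rw [f1, f2, f3]
  set A := (TT V V y)⁻¹ with hAdef
  set B := (TT W W y)⁻¹ with hBdef
  set T := TT V W y with hTdef
  have r1 : v ⬝ᵥ (-(A * Matrix.vecMulVec v v * A)) *ᵥ v = -((v ⬝ᵥ A *ᵥ v) * (v ⬝ᵥ A *ᵥ v)) := by
    rw [Matrix.neg_mulVec, dotProduct_neg, dd2_rank1]
  have r2 : w ⬝ᵥ (-(B * Matrix.vecMulVec w w * B)) *ᵥ w = -((w ⬝ᵥ B *ᵥ w) * (w ⬝ᵥ B *ᵥ w)) := by
    rw [Matrix.neg_mulVec, dotProduct_neg, dd2_rank1]
  have r3 : v ⬝ᵥ ((-(A * Matrix.vecMulVec v v * A) * T + A * Matrix.vecMulVec v w) * B +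
      A * T * -(B * Matrix.vecMulVec w w * B)) *ᵥ w =
      -((v ⬝ᵥ A *ᵥ v) * (v ⬝ᵥ (A * T * B) *ᵥ w)) + (v ⬝ᵥ A *ᵥ v) * (w ⬝ᵥ B *ᵥ w) -
        (v ⬝ᵥ (A * T * B) *ᵥ w) * (w ⬝ᵥ B *ᵥ w) := by
    have e : (-(A * Matrix.vecMulVec v v * A) * T + A * Matrix.vecMulVec v w) * B +
        A * T * -(B * Matrix.vecMulVec w w * B) =
        -(A * Matrix.vecMulVec v v * (A * T * B)) + A * Matrix.vecMulVec v w * B +
          -((A * T * B) * Matrix.vecMulVec w w * B) := by
      simp only [Matrix.mul_assoc, Matrix.neg_mul, Matrix.mul_neg, Matrix.add_mul]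
    rw [e, Matrix.add_mulVec, Matrix.add_mulVec, Matrix.neg_mulVec, Matrix.neg_mulVec,
      dotProduct_add, dotProduct_add, dotProduct_neg, dotProduct_neg, dd2_rank1, dd2_rank1,
      dd2_rank1]
    ring
  rw [r1, r2, r3]
  field_simp
  ring

end Pool.Agent.Helper44.GN
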